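import Mathlib
import Pool.Agent.H281P.Cert

/-!
# The restricted density polynomial Hales-Jewett conjecture and algebraic certificates

A member `A` of a family `F` of subsets of `[N]^d` has a certificate of degree `D` if some function
of degree at most `D` with values in some abelian group (any field, for instance; it may depend on
`A`) does not vanish at `A` and vanishes outside of `F`. Examples: `F` is the set of all `A` where
some polynomial of degree `D` over some field is not zero; `F` is any union (with any number of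
terms, over different fields) of such families; all sets `B` with `P i B = P i A` for polynomials
`P i` over `F_p` with `∑ (p - 1) deg (P i) ≤ D` are in `F`; membership of `A` is certified by at most
`D` cells.

With `m = d D + 1`, `q = 2 ^ (- m ^ d)` and `K = ⌊N / m⌋`: if a family `S` is not good, then in every
family `F` the number of the members with a certificate of degree `D` is at most
`(8 / q) |F \ S| + exp (- q K / 4) 2 ^ (N ^ d)`.

Proof. Let `A` have the certificate `g`, and let `A` be disjoint from `Γ ^ d`, `|Γ| = m`. For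
`γ ⊆ Γ` the value `g (A ∪ γ ^ d)` is a function of degree at most `d D < |Γ|` of `γ`; so it does not
vanish at `∅` only, and some `A ∪ γ ^ d` with `γ ≠ ∅` is in `F`. Double counting over `K` disjoint
blocks `Γ`.
-/

set_option autoImplicit false

namespace Pool.Agent.Results.MP_90b327_co.AlgebraicCertificates

open Finset Pool.Agent.H281P

/-- `cube d γ` is `γ^d`, the set of all `d`-tuples with entries in `γ`. -/
def cube {N : ℕ} (d : ℕ) (γ : Finset (Fin N)) : Finset (Fin d → Fin N) :=
  Fintype.piFinset (fun _ : Fin d => γ)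

/-- A family `S` of subsets of `[N]^d` is good if there are `A ∈ S` and a nonempty `γ ⊆ [N]` with
`A ∩ γ^d = ∅` and `A ∪ γ^d ∈ S`. -/
def Good {N d : ℕ} (S : Finset (Finset (Fin d → Fin N))) : Prop :=
  ∃ A ∈ S, ∃ γ : Finset (Fin N), γ.Nonempty ∧ Disjoint A (cube d γ) ∧ A ∪ cube d γ ∈ S

/-- the general inequality -/
lemma main {d D N : ℕ} (hd : 1 ≤ d) (S F : Finset (Finset (Fin d → Fin N))) (hS : ¬ Good S) :
    ({A | A ∈ F ∧ HasCert D F A}.ncard : ℝ) ≤
      8 * 2 ^ ((d * D + 1) ^ d) * ((F \ S).card : ℝ) +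
        Real.exp (-((N / (d * D + 1) : ℕ) / (4 * 2 ^ ((d * D + 1) ^ d)))) * 2 ^ (N ^ d) := by
  classical
  set m := d * D + 1 with hm
  set K := N / m with hK
  have hKm : K * m ≤ N := Nat.div_mul_le_self N m
  set b := m ^ d with hb
  let C : Fin K → Finset (Fin d → Fin N) := Pool.Agent.H720R3.C d hKm
  have hCc : ∀ j, (C j).card = b := fun j => Pool.Agent.H720R3.card_C hKm j
  have hCd : ∀ i j, i ≠ j → Disjoint (C i) (C j) :=
    fun i j h => Pool.Agent.H720R3.C_disj hd hKm i j h
  have hcardE : (2 : ℝ) ^ Fintype.card (Fin d → Fin N) = 2 ^ (N ^ d) := by simp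
  set P : Finset (Finset (Fin d → Fin N)) := F.filter fun A => HasCert D F A with hP
  have hPc : ({A | A ∈ F ∧ HasCert D F A}.ncard : ℝ) = P.card := by
    rw [← Set.ncard_coe_finset]
    congr 2
    ext A
    simp [hP]
  rw [hPc]
  have hfew := few C b hCc hCd
  rw [hcardE] at hfew
  set s : ℝ := (K : ℝ) / (4 * 2 ^ b) with hs
  -- the moves
  have hmove : ∀ (A : Finset (Fin d → Fin N)) (j : Fin K), ∃ γ : Finset (Fin N),
      A ∈ P → Disjoint A (C j) → γ ⊆ Pool.Agent.H720R3.T hKm j ∧ γ.Nonempty ∧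
        A ∪ cube d γ ∈ F := by
    intro A j
    by_cases hA : A ∈ P
    · rw [hP, mem_filter] at hA
      obtain ⟨γ, h1, h2, h3⟩ := exists_move hd hA.2 (Pool.Agent.H720R3.T hKm j) (by
        rw [Pool.Agent.H720R3.card_T]; omega)
      exact ⟨γ, fun _ _ => ⟨h1, h2, h3⟩⟩
    · exact ⟨∅, fun h => absurd h hA⟩
  choose γ hγ using hmove
  have hsubC : ∀ (A : Finset (Fin d → Fin N)) (j : Fin K), A ∈ P → Disjoint A (C j) →
      cube d (γ A j) ⊆ C j := by
    intro A j hA hd' x hx
    have h1 := (hγ A j hA hd').1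
    unfold cube at hx
    rw [Fintype.mem_piFinset] at hx
    show x ∈ Pool.Agent.H720R3.C d hKm j
    rw [Pool.Agent.H720R3.C, Pool.Agent.H720R3.mem_pw]
    exact fun i => h1 (hx i)
  -- double counting
  have hcount : ∑ A ∈ P.filter (fun A => A ∈ S), emp C A ≤ (F \ S).card * K := by
    have e1 : ∑ A ∈ P.filter (fun A => A ∈ S), emp C A =
        (((P.filter fun A => A ∈ S) ×ˢ (univ : Finset (Fin K))).filter
          fun x => Disjoint x.1 (C x.2)).card := by
      rw [Finset.card_filter, Finset.sum_product]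
      refine Finset.sum_congr rfl fun A _ => ?_
      unfold emp
      rw [Finset.card_filter]
    have e2 : (F \ S).card * K = ((F \ S) ×ˢ (univ : Finset (Fin K))).card := by
      rw [Finset.card_product]; simp
    rw [e1, e2]
    refine Finset.card_le_card_of_injOn (fun x => (x.1 ∪ cube d (γ x.1 x.2), x.2)) ?_ ?_
    · rintro ⟨A, j⟩ hx
      rw [mem_coe, mem_filter, mem_product, mem_filter] at hx
      obtain ⟨⟨⟨hAP, hAS⟩, _⟩, hdj⟩ := hx
      simp only at hAP hAS hdj
      obtain ⟨h1, h2, h3⟩ := hγ A j hAP hdj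
      rw [mem_coe, mem_product, mem_sdiff]
      refine ⟨⟨h3, fun h4 => ?_⟩, mem_univ _⟩
      exact hS ⟨A, hAS, γ A j, h2, hdj.mono_right (hsubC A j hAP hdj), h4⟩
    · rintro ⟨A, j⟩ hx ⟨B, k⟩ hy hxy
      rw [mem_coe, mem_filter, mem_product, mem_filter] at hx hy
      obtain ⟨⟨⟨hAP, hAS⟩, _⟩, hdj⟩ := hx
      obtain ⟨⟨⟨hBP, hBS⟩, _⟩, hdk⟩ := hy
      simp only at hAP hAS hdj hBP hBS hdk
      rw [Prod.mk.injEq] at hxy
      obtain ⟨h1, h2⟩ := hxy
      simp only at h1 h2
      subst h2
      have key : ∀ Z ∈ P, Disjoint Z (C j) → (Z ∪ cube d (γ Z j)) \ C j = Z := by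
        intro Z hZ hZj
        rw [union_sdiff_distrib, sdiff_eq_empty_iff_subset.2 (hsubC Z j hZ hZj), union_empty]
        exact sdiff_eq_self_of_disjoint hZj
      have h3 : (A ∪ cube d (γ A j)) \ C j = (B ∪ cube d (γ B j)) \ C j := by rw [h1]
      rw [key A hAP hdj, key B hBP hdk] at h3
      rw [h3]
  have h2b : (1 : ℝ) ≤ 2 ^ b := one_le_pow₀ (by norm_num)
  have hFS0 : (0 : ℝ) ≤ ((F \ S).card : ℝ) := Nat.cast_nonneg _
  have hexp0 : 0 < Real.exp (-s) * 2 ^ (N ^ d) := by positivity
  -- the three parts of `P`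
  have hsplit : P.card ≤ (univ.filter fun A : Finset (Fin d → Fin N) => (emp C A : ℝ) < s).card +
      ((P.filter fun A => A ∈ S).filter fun A => s ≤ (emp C A : ℝ)).card + (F \ S).card := by
    have hsub : P ⊆ ((univ.filter fun A : Finset (Fin d → Fin N) => (emp C A : ℝ) < s) ∪
        ((P.filter fun A => A ∈ S).filter fun A => s ≤ (emp C A : ℝ))) ∪ (F \ S) := by
      intro A hA
      rw [mem_union, mem_union, mem_filter, mem_filter, mem_filter, mem_sdiff]
      by_cases h1 : A ∈ S
      · by_cases h2 : (emp C A : ℝ) < s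
        · exact Or.inl (Or.inl ⟨mem_univ _, h2⟩)
        · exact Or.inl (Or.inr ⟨⟨hA, h1⟩, not_lt.1 h2⟩)
      · exact Or.inr ⟨(mem_filter.1 hA).1, h1⟩
    exact (card_le_card hsub).trans ((card_union_le _ _).trans
      (Nat.add_le_add_right (card_union_le _ _) _))
  have hmid : (((P.filter fun A => A ∈ S).filter fun A => s ≤ (emp C A : ℝ)).card : ℝ) * K ≤
      4 * 2 ^ b * (((F \ S).card : ℝ) * K) := by
    have h1 : (((P.filter fun A => A ∈ S).filter fun A => s ≤ (emp C A : ℝ)).card : ℝ) * s ≤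
        ((F \ S).card : ℝ) * K := by
      have h2 : ((∑ A ∈ P.filter (fun A => A ∈ S), emp C A : ℕ) : ℝ) ≤
          (((F \ S).card * K : ℕ) : ℝ) := Nat.cast_le.2 hcount
      push_cast at h2
      refine le_trans ?_ h2
      rw [← nsmul_eq_mul, ← Finset.sum_const]
      refine (Finset.sum_le_sum fun A hA => (mem_filter.1 hA).2).trans
        (Finset.sum_le_sum_of_subset_of_nonneg (Finset.filter_subset _ _)
          fun A _ _ => Nat.cast_nonneg _)
    have h3 : (K : ℝ) = s * (4 * 2 ^ b) := by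
      rw [hs]; field_simp
    calc _ = (((P.filter fun A => A ∈ S).filter fun A => s ≤ (emp C A : ℝ)).card : ℝ) * s *
          (4 * 2 ^ b) := by
          conv_lhs => rw [h3]
          ring
      _ ≤ ((F \ S).card : ℝ) * K * (4 * 2 ^ b) := mul_le_mul_of_nonneg_right h1 (by positivity)
      _ = _ := by ring
  have hsplit' : (P.card : ℝ) ≤
      ((univ.filter fun A : Finset (Fin d → Fin N) => (emp C A : ℝ) < s).card : ℝ) +
      (((P.filter fun A => A ∈ S).filter fun A => s ≤ (emp C A : ℝ)).card : ℝ) +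
      ((F \ S).card : ℝ) := by
    exact_mod_cast hsplit
  rcases Nat.eq_zero_or_pos K with hK0 | hK0
  · -- no blocks: the trivial bound
    have h1 : s = 0 := by rw [hs, hK0]; simp
    have h2 : P.card ≤ Fintype.card (Finset (Fin d → Fin N)) := card_le_univ _
    have h3 : ((Fintype.card (Finset (Fin d → Fin N)) : ℕ) : ℝ) = 2 ^ (N ^ d) := by
      rw [Fintype.card_finset]
      push_cast
      rw [hcardE]
    have h4 : (P.card : ℝ) ≤ 2 ^ (N ^ d) := by rw [← h3]; exact_mod_cast h2
    rw [h1, neg_zero, Real.exp_zero, one_mul]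
    have : 0 ≤ 8 * 2 ^ b * ((F \ S).card : ℝ) := by positivity
    linarith
  · have hKr : (0 : ℝ) < K := by exact_mod_cast hK0
    have h1 : (((P.filter fun A => A ∈ S).filter fun A => s ≤ (emp C A : ℝ)).card : ℝ) ≤
        4 * 2 ^ b * ((F \ S).card : ℝ) := by
      refine le_of_mul_le_mul_right ?_ hKr
      calc _ ≤ _ := hmid
        _ = _ := by ring
    have h2 : ((F \ S).card : ℝ) ≤ 2 ^ b * ((F \ S).card : ℝ) :=
      le_mul_of_one_le_left hFS0 h2b
    have h3 : (0 : ℝ) ≤ 2 ^ b * ((F \ S).card : ℝ) := by positivity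
    linarith

/-- (1) Let `d ≥ 1`, `m = d D + 1`. If the family `S` of subsets of `[N]^d` is not good, then every
family `F` has at most `8 2^(m^d) |F \ S| + exp (- ⌊N / m⌋ / (4 2^(m^d))) 2^(N^d)` members with a
certificate of degree `D` in `F`.

(2) So a family `S` is good if more than `exp (- (√N - 1) / 4) 2^(N^d)` of its members have a
certificate of degree `D` in `S` with `16^(m^d) ≤ N`, i.e. `D` up to a constant times
`(log N)^(1/d)`. -/
theorem result :
    (∀ d D N : ℕ, 1 ≤ d → ∀ S F : Finset (Finset (Fin d → Fin N)), ¬ Good S →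
      ({A | A ∈ F ∧ HasCert D F A}.ncard : ℝ) ≤
        8 * 2 ^ ((d * D + 1) ^ d) * ((F \ S).card : ℝ) +
          Real.exp (-((N / (d * D + 1) : ℕ) / (4 * 2 ^ ((d * D + 1) ^ d)))) * 2 ^ (N ^ d)) ∧
    (∀ d D N : ℕ, 1 ≤ d → 16 ^ ((d * D + 1) ^ d) ≤ N → ∀ S : Finset (Finset (Fin d → Fin N)),
      Real.exp (-((Real.sqrt N - 1) / 4)) * 2 ^ (N ^ d) <
        ({A | A ∈ S ∧ HasCert D S A}.ncard : ℝ) → Good S) := by
  refine ⟨fun d D N hd S F hS => main hd S F hS, fun d D N hd hN S hS => ?_⟩
  by_contra hgood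
  have h1 := main (D := D) hd S S hgood
  rw [Finset.sdiff_self, card_empty, Nat.cast_zero, mul_zero, zero_add] at h1
  refine absurd (h1.trans ?_) (not_le.2 hS)
  refine mul_le_mul_of_nonneg_right ?_ (by positivity)
  rw [Real.exp_le_exp, neg_le_neg_iff]
  set m := d * D + 1 with hm
  set b := m ^ d with hb
  -- `(√N - 1) / 4 ≤ ⌊N / m⌋ / (4 2^b)`
  have hNr : ((16 : ℝ) ^ b) ≤ N := by exact_mod_cast hN
  set y : ℝ := 2 ^ b with hy
  have hy1 : 1 ≤ y := one_le_pow₀ (by norm_num)
  have hy4 : y ^ 4 ≤ N := by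
    rw [hy, ← pow_mul, mul_comm b 4, pow_mul]
    norm_num
    exact hNr
  have hmy : (m : ℝ) ≤ y := by
    have h2 : m ≤ b := Nat.le_self_pow (by omega) m
    have h3 : b < 2 ^ b := Nat.lt_two_pow_self
    have h4 : m ≤ 2 ^ b := by omega
    rw [hy]
    exact_mod_cast h4
  have hm0 : (0 : ℝ) < m := by
    have : 0 < m := by omega
    exact_mod_cast this
  have hfl : (N : ℝ) / m - 1 ≤ ((N / m : ℕ) : ℝ) := by
    have h2 : N < (N / m + 1) * m := by
      have := Nat.lt_div_mul_add (a := N) (b := m) (by omega)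
      nlinarith
    have h3 : (N : ℝ) < (((N / m : ℕ) : ℝ) + 1) * m := by exact_mod_cast h2
    rw [sub_le_iff_le_add, div_le_iff₀ hm0]
    exact h3.le
  have hN0 : (0 : ℝ) ≤ N := Nat.cast_nonneg _
  have hsq : Real.sqrt N * Real.sqrt N = N := Real.mul_self_sqrt hN0
  have hsy : y ^ 2 ≤ Real.sqrt N := by
    rw [Real.le_sqrt (by positivity) hN0]
    have h6 : (y ^ 2) ^ 2 = y ^ 4 := by ring
    rw [h6]
    exact hy4
  have hs0 : 0 ≤ Real.sqrt N := Real.sqrt_nonneg _
  have hdiv : Real.sqrt N * y ≤ (N : ℝ) / m := by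
    rw [le_div_iff₀ hm0]
    calc Real.sqrt N * y * m ≤ Real.sqrt N * y * y :=
          mul_le_mul_of_nonneg_left hmy (by positivity)
      _ = Real.sqrt N * y ^ 2 := by ring
      _ ≤ Real.sqrt N * Real.sqrt N := mul_le_mul_of_nonneg_left hsy hs0
      _ = (N : ℝ) := hsq
  rw [le_div_iff₀ (by positivity)]
  have h5 : (Real.sqrt N - 1) / 4 * (4 * y) = Real.sqrt N * y - y := by ring
  rw [h5]
  linarith

end Pool.Agent.Results.MP_90b327_co.AlgebraicCertificates
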