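import Pool.Agent.V11163.PH.Fin

/-!
# The restricted density polynomial Hales-Jewett conjecture for families of bounded rank

A function `f` of the `N ^ d` bits (of the characteristic function of a subset `A` of `[N]^d`) with
values in a field decides the family of the `A` with `f A ≠ 0`.

(1) If `f` has small rank with respect to `t` disjoint diagonal blocks `I_1 ^ d, ..., I_t ^ d` (for all
fixed bits outside the blocks), and the family is not good, then it has density at most `μ ^ t`,
`μ < 1`. Here `f` has rank at most `w` with respect to a block if it is a sum of `w` products of a
function of the bits in the block and a function of the other bits.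

(2) This applies to weighted machines: the value is a bilinear form of the product of matrices of size
`w` over an arbitrary field, one for each step of `p` passes over the cells, which are read in orders
compatible with a numbering of `[N]` (`Compatible`: if all coordinates of `c` are smaller than all
coordinates of `c'` then `c` is read before `c'`, or always after `c'`). The weights are arbitrary, so
there may be cancellations, and a block may have infinitely many different effects.
Nondeterministic machines with `w` states are the case of `0`-`1` matrices over `ℚ`.

**Proof.** If the rank is at most `w`, then there are `w` fixings of the bits outside the block such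
that every content of the block which occurs in some member of the family occurs in a member with one of
these `w` fixings. If all contents occur, then this gives a colouring of all contents with `w` colours,
and the polynomial Hales-Jewett theorem (`Pool.Agent.Y613.PJ.exists_full`) gives a content `a` and a set
`γ` such that `a` and `a ∪ γ ^ d` have the same colour, so that the family is good. So for every block
some content does not occur, and the blocks are independent.
-/

set_option autoImplicit false

open Finset

namespace Pool.Agent.Results.MP_90b327_co.BoundedRank

open Pool.Agent.V11163.PH
open Pool.Agent.Y613.PJ (Good cube Compatible)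
open Pool.Agent.TH700.PA (Rk mix)

theorem result (d : ℕ) (hd : 1 ≤ d) :
    -- (1) functions of small rank with respect to diagonal blocks
    (∀ w : ℕ, 1 ≤ w → ∃ l : ℕ, 1 ≤ l ∧ ∀ (N t : ℕ) (e : Fin t → Fin l → Fin N),
      (∀ k k' a a', e k a = e k' a' → k = k' ∧ a = a') →
      ∀ (K : Type) [Field K] (f : ((Fin d → Fin N) → Bool) → K),
        (∀ k ρ, Rk w (fun z => f (mix (blks d e) z ρ)) (blk d e k)) →
        ∀ S : Finset (Finset (Fin d → Fin N)), IsFam f S → ¬ Good S →
          (2 ^ l ^ d) ^ t * S.card ≤ (2 ^ l ^ d - 1) ^ t * 2 ^ N ^ d) ∧
    -- (2) unions of families decided by weighted machines
    (∀ w p : ℕ, ∃ lam : ℝ, 0 < lam ∧ lam < 1 ∧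
      ∀ (N T : ℕ) (G : Fin T → Finset (Finset (Fin d → Fin N)))
        (S : Finset (Finset (Fin d → Fin N))), (∀ i, Weighted d N w p (G i)) →
        (∀ A, A ∈ S ↔ ∃ i, A ∈ G i) → 2 * T * lam ^ N * 2 ^ (N ^ d) < (S.card : ℝ) → Good S) :=
  ⟨fun w hw => main d w hd hw, fun w p => weighted_good d w p hd⟩

end Pool.Agent.Results.MP_90b327_co.BoundedRank
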