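import Pool.Agent.Helper12.LocHJ

/-!
# The restricted density polynomial Hales-Jewett conjecture for formulas of depth three with parities

We consider the families `S` of subsets of `[N]^d` which are unions of `M` families, each given by the
conjunction of an arbitrary family of constraints of width `k`; a constraint of width `k` is a
condition on `A ⊆ [N]^d` which depends only on the parities of `|A ∩ P_1|, …, |A ∩ P_k|` for some sets
`P_1, …, P_k ⊆ [N]^d`. (Formulas of depth three with parities and fan-in `k` at the bottom; the number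
of constraints is not bounded, and the sets `P_i` are arbitrary.)

In every dimension `d` the conjecture holds for the families of this kind, with exponentially small
density: there is `γ = γ (k) > 0` such that they are good if they have more than
`C M 2 ^ (N ^ d - γ N / (d + 1))` members.

Proof. A conjunction of constraints of width `k` with density larger than `(1 - 2 ^ (- k)) ^ T`
contains an affine subspace of codimension at most `T k (k + 1) / 2`: choose constraints greedily whose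
forms are linearly independent modulo the forms already used; there are less than `T` of them, so
on each coset of the common kernel of at most `k T` forms all constraints have width `k - 1`; pass to the
densest coset. Affine subspaces of codimension less than `N / (d + 1)` are good by a result of
the starting library (Chevalley's theorem).
-/

set_option autoImplicit false

namespace Pool.Agent.Results.MP_90b327_co.ParityConstraints

open Finset Pool.Agent.Helper12.LocBic

/-- The family `S` of subsets of `[N]^d` is good: there are `A ∈ S` and a nonempty `γ ⊆ [N]` with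
`A ∩ γ^d = ∅` and `A ∪ γ^d ∈ S`. -/
def Good {d N : ℕ} (S : Finset (Finset (Fin d → Fin N))) : Prop :=
  ∃ A ∈ S, ∃ γ : Finset (Fin N), γ.Nonempty ∧
    Disjoint A (Fintype.piFinset (fun _ : Fin d => γ)) ∧
    A ∪ Fintype.piFinset (fun _ : Fin d => γ) ∈ S

/-- A constraint of width `k` on the subsets `A` of `[N]^d`: a condition `φ` which depends only on the
parities of `|A ∩ P_1|, …, |A ∩ P_k|`. -/
def IsConstraint (k d N : ℕ) (φ : Finset (Fin d → Fin N) → Prop) : Prop :=
  ∃ P : Fin k → Finset (Fin d → Fin N), ∀ A B : Finset (Fin d → Fin N),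
    (∀ i, (A ∩ P i).card % 2 = (B ∩ P i).card % 2) → (φ A ↔ φ B)

/-- A conjunction of an arbitrary family `Φ` of constraints of width `k`. -/
def IsConj (k d N : ℕ) (F : Finset (Fin d → Fin N) → Prop) : Prop :=
  ∃ Φ : Set (Finset (Fin d → Fin N) → Prop), (∀ φ ∈ Φ, IsConstraint k d N φ) ∧
    ∀ A, F A ↔ ∀ φ ∈ Φ, φ A

/-- `S` is the union of `M` families, each given by a conjunction of constraints of width `k`. -/
def GivenBy (k d N M : ℕ) (S : Finset (Finset (Fin d → Fin N))) : Prop :=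
  ∃ F : Fin M → Finset (Fin d → Fin N) → Prop, (∀ i, IsConj k d N (F i)) ∧
    ∀ A, A ∈ S ↔ ∃ i, F i A

/-- The exponent `γ (k) = log_2 (2 ^ k / (2 ^ k - 1)) / (k (k + 1) / 2) > 0`. -/
noncomputable def γ (k : ℕ) : ℝ :=
  Real.logb 2 ((2 : ℝ) ^ k / ((2 : ℝ) ^ k - 1)) / (k * (k + 1) / 2 : ℕ)

theorem gam_eq (k : ℕ) : gam 2 k = γ k := by
  rw [gam, lam, γ, Real.logb, div_div, mul_comm (Real.log 2)]
  norm_num

theorem bd {k d N : ℕ} {F : Finset (Fin d → Fin N) → Prop} (hF : IsConj k d N F) :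
    Pool.Agent.Helper12.LocAff.Bd 2 k
      (fun z : (Fin d → Fin N) → ZMod 2 => F (Pool.Agent.Helper12.LocHJ.chi.symm z)) := by
  obtain ⟨Φ, hΦ, hFΦ⟩ := hF
  refine ⟨(fun φ z => φ (Pool.Agent.Helper12.LocHJ.chi.symm z)) '' Φ, ?_, ?_⟩
  · rintro _ ⟨φ, hφ, rfl⟩
    obtain ⟨P, hP⟩ := hΦ φ hφ
    refine ⟨fun i => Pool.Agent.Helper12.LocHJ.form (P i), fun z z' h => hP _ _ fun i => ?_⟩
    have h1 := h i
    rw [← Pool.Agent.Helper12.LocHJ.chi.apply_symm_apply z,
      ← Pool.Agent.Helper12.LocHJ.chi.apply_symm_apply z', Pool.Agent.Helper12.LocHJ.form_chi,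
      Pool.Agent.Helper12.LocHJ.form_chi, ZMod.natCast_eq_natCast_iff] at h1
    exact h1
  · intro z
    show F (Pool.Agent.Helper12.LocHJ.chi.symm z) ↔ _
    rw [hFΦ, Set.forall_mem_image]

theorem bound {k d N M : ℕ} (hd : 1 ≤ d) (hk : 1 ≤ k) (S : Finset (Finset (Fin d → Fin N)))
    (hS : GivenBy k d N M S) (hbad : ¬ Good S) :
    (S.card : ℝ) ≤ (2 : ℝ) ^ k / ((2 : ℝ) ^ k - 1) * M * 2 ^ (N ^ d) *
      (2 : ℝ) ^ (-(γ k * ((N : ℝ) - 1) / (d + 1))) := by
  classical
  obtain ⟨F, hF, hSF⟩ := hS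
  have hcard : (S.map Pool.Agent.Helper12.LocHJ.chi.toEmbedding).card = S.card := card_map _
  have h := pattern_bound (p := 2) (b := d + 1) (m := N) hk (by omega)
    (S.map Pool.Agent.Helper12.LocHJ.chi.toEmbedding)
    (fun i z => F i (Pool.Agent.Helper12.LocHJ.chi.symm z)) (fun i => bd (hF i)) (by
      intro q
      rw [mem_map_equiv, hSF]) (by
      intro y W D hW hD hall
      refine hbad (Pool.Agent.Helper12.LocHJ.good_of_affine hd S y W D hW hD fun w hw => ?_)
      have := hall w hw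
      rwa [mem_map_equiv] at this)
  have hexp : Real.exp (lam 2 k) = (2 : ℝ) ^ k / ((2 : ℝ) ^ k - 1) := by
    have h2 : (2 : ℝ) ≤ (2 : ℝ) ^ k := by
      have h1 : 2 ≤ 2 ^ k := by
        calc 2 = 2 ^ 1 := (pow_one 2).symm
          _ ≤ 2 ^ k := Nat.pow_le_pow_right (by norm_num) hk
      exact_mod_cast h1
    rw [lam, Real.exp_log]
    · norm_num
    · apply div_pos <;> push_cast <;> linarith
  rw [hcard, hexp, gam_eq, Fintype.card_fun, ZMod.card, Fintype.card_fun, Fintype.card_fin,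
    Fintype.card_fin] at h
  refine h.trans (le_of_eq ?_)
  have e : (2 : ℝ) ^ (-(γ k * ((N : ℝ) - 1) / (d + 1))) =
      (2 : ℝ) ^ (γ k / ((d + 1 : ℕ) : ℝ)) * ((2 : ℝ) ^ N) ^ (-(γ k / ((d + 1 : ℕ) : ℝ))) := by
    rw [← Real.rpow_natCast (2 : ℝ) N, ← Real.rpow_mul (by norm_num),
      ← Real.rpow_add (by norm_num)]
    congr 1
    push_cast
    ring
  rw [e]
  push_cast
  ring

/-- Let `d ≥ 1` and `k ≥ 1`. (1) A family `S` of subsets of `[N]^d` which is not good and is the union
of `M` families given by conjunctions of constraints of width `k` has at most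
`C M 2 ^ (N ^ d - γ (N - 1) / (d + 1))` members, `C = 2 ^ k / (2 ^ k - 1)`. (2) `γ > 0`. (3) So if `S`
has more than `δ 2 ^ (N ^ d)` members and `N ≥ 1 + (d + 1) log_2 (2 M / δ) / γ` then `S` is good. -/
theorem result :
    (∀ d k N M : ℕ, 1 ≤ d → 1 ≤ k → ∀ S : Finset (Finset (Fin d → Fin N)), GivenBy k d N M S →
      ¬ Good S → (S.card : ℝ) ≤ (2 : ℝ) ^ k / ((2 : ℝ) ^ k - 1) * M * 2 ^ (N ^ d) *
        (2 : ℝ) ^ (-(γ k * ((N : ℝ) - 1) / (d + 1)))) ∧
    (∀ k : ℕ, 1 ≤ k → 0 < γ k) ∧
    (∀ d k N M : ℕ, 1 ≤ d → 1 ≤ k → 1 ≤ M → ∀ δ : ℝ, 0 < δ →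
      1 + (d + 1) * Real.logb 2 (2 * M / δ) / γ k ≤ N →
      ∀ S : Finset (Finset (Fin d → Fin N)), GivenBy k d N M S →
        δ * (2 : ℝ) ^ (N ^ d) < S.card → Good S) := by
  have hγ : ∀ k : ℕ, 1 ≤ k → 0 < γ k := by
    intro k hk
    rw [← gam_eq]
    exact gam_pos Nat.prime_two hk
  refine ⟨fun d k N M hd hk S hS hbad => bound hd hk S hS hbad, hγ, ?_⟩
  intro d k N M hd hk hM δ hδ hN S hS hcard
  by_contra hbad
  have h := bound hd hk S hS hbad
  have hγk := hγ k hk
  have h2 : (2 : ℝ) ≤ (2 : ℝ) ^ k := by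
    have h1 : 2 ≤ 2 ^ k := by
      calc 2 = 2 ^ 1 := (pow_one 2).symm
        _ ≤ 2 ^ k := Nat.pow_le_pow_right (by norm_num) hk
    exact_mod_cast h1
  have hC : (2 : ℝ) ^ k / ((2 : ℝ) ^ k - 1) ≤ 2 := by
    rw [div_le_iff₀ (by linarith)]
    linarith
  have hM0 : (0 : ℝ) < M := by exact_mod_cast hM
  have hd0 : (0 : ℝ) < (d : ℝ) + 1 := by positivity
  have hx : Real.logb 2 (2 * M / δ) ≤ γ k * ((N : ℝ) - 1) / (d + 1) := by
    rw [le_div_iff₀ hd0]
    have h3 : (d + 1) * Real.logb 2 (2 * M / δ) / γ k ≤ (N : ℝ) - 1 := by linarith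
    rw [div_le_iff₀ hγk] at h3
    linarith
  have h4 : (2 : ℝ) ^ (-(γ k * ((N : ℝ) - 1) / (d + 1))) ≤ δ / (2 * M) := by
    calc (2 : ℝ) ^ (-(γ k * ((N : ℝ) - 1) / (d + 1))) ≤ (2 : ℝ) ^ (-Real.logb 2 (2 * M / δ)) :=
          Real.rpow_le_rpow_of_exponent_le (by norm_num) (by linarith)
      _ = δ / (2 * M) := by
          rw [Real.rpow_neg (by norm_num), Real.rpow_logb (by norm_num) (by norm_num)
            (by positivity), inv_div]
  have h5 : (S.card : ℝ) ≤ δ * (2 : ℝ) ^ (N ^ d) := by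
    calc (S.card : ℝ) ≤ (2 : ℝ) ^ k / ((2 : ℝ) ^ k - 1) * M * 2 ^ (N ^ d) *
          (2 : ℝ) ^ (-(γ k * ((N : ℝ) - 1) / (d + 1))) := h
      _ ≤ 2 * M * 2 ^ (N ^ d) * (δ / (2 * M)) := by
          apply mul_le_mul _ h4 (by positivity) (by positivity)
          apply mul_le_mul_of_nonneg_right _ (by positivity)
          exact mul_le_mul_of_nonneg_right hC hM0.le
      _ = δ * (2 : ℝ) ^ (N ^ d) := by
          field_simp
  linarith

end Pool.Agent.Results.MP_90b327_co.ParityConstraints
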